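import Pool.Agent.FUR.Stmts

/-!
# Squad FUR, row MOM: moment bound for the sensitivity of De Morgan formulas
-/

set_option autoImplicit false

open Finset

namespace Pool.Agent.FUR.H91

open Pool.Agent.FUR

variable {N : ℕ}

theorem ev_const {ι : Type} : ∀ (F : Fm ι), F.lv = 0 → ∀ x y : ι → Bool, F.ev x = F.ev y
  | Fm.cst _, _, _, _ => rfl
  | Fm.lit _ _, h, _, _ => by
      have : (1 : ℕ) = 0 := h
      omega
  | Fm.and F G, h, x, y => by
      have h' : F.lv + G.lv = 0 := h
      show (F.ev x && G.ev x) = (F.ev y && G.ev y)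
      rw [ev_const F (by omega) x y, ev_const G (by omega) x y]
  | Fm.or F G, h, x, y => by
      have h' : F.lv + G.lv = 0 := h
      show (F.ev x || G.ev x) = (F.ev y || G.ev y)
      rw [ev_const F (by omega) x y, ev_const G (by omega) x y]

theorem ess_rst {f : BF N} {v w : Fin N} {b : Bool} (h : Ess (rst f v b) w) : w ≠ v ∧ Ess f w := by
  obtain ⟨x, hx⟩ := h
  have hwv : w ≠ v := by
    intro e
    refine hx ?_
    subst e
    unfold rst fl
    rw [Function.update_idem]
  refine ⟨hwv, Function.update x v b, ?_⟩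
  have e : fl (Function.update x v b) w = Function.update (fl x w) v b := by
    unfold fl
    rw [Function.update_of_ne hwv, Function.update_comm hwv]
  rw [e]
  exact hx

theorem sn_sub {f : BF N} {A : Finset (Fin N)} (h : ∀ v, Ess f v → v ∈ A) (x : Fin N → Bool) :
    Sn f x ⊆ A := by
  intro v hv
  exact h v ⟨x, (Finset.mem_filter.1 hv).2⟩

theorem card_cube : ((univ : Finset (Fin N → Bool)).card : ℝ) = 2 ^ N := by
  rw [Finset.card_univ, Fintype.card_fun, Fintype.card_bool, Fintype.card_fin]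
  push_cast
  rfl

/-- trivial bound -/
theorem mq_triv (q n : ℕ) (f : BF N) (A : Finset (Fin N)) (h : ∀ v, Ess f v → v ∈ A)
    (hn : A.card ≤ n) : (Mq q f : ℝ) ≤ 2 ^ N * 2 ^ n := by
  have h1 : ∀ x : Fin N → Bool, ((Sn f x).card).choose q ≤ 2 ^ n := fun x =>
    (Nat.choose_le_two_pow _ _).trans
      (Nat.pow_le_pow_right (by norm_num) ((Finset.card_le_card (sn_sub h x)).trans hn))
  have h2 : (Mq q f : ℝ) ≤ ∑ _x : Fin N → Bool, (2 : ℝ) ^ n := by
    unfold Mq
    push_cast
    refine Finset.sum_le_sum fun x _ => ?_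
    exact_mod_cast h1 x
  rw [Finset.sum_const, nsmul_eq_mul, card_cube] at h2
  exact h2

/-- the power of a product -/
theorem pw (γ : ℝ) (Q : ℕ) {a s : ℝ} (ha : 0 ≤ a) (hs : 0 ≤ s) :
    (a ^ γ * s ^ ((2 : ℝ) / 3)) ^ Q = a ^ (γ * Q) * s ^ ((2 : ℝ) / 3 * Q) := by
  rw [mul_pow, ← Real.rpow_natCast, ← Real.rpow_natCast, ← Real.rpow_mul ha, ← Real.rpow_mul hs]

theorem mom (one : ONEStmt) (avg : AVGStmt) (hvy : HVYStmt) (rpw : RPWStmt) : MOMStmt := by
  intro q
  induction q with
  | zero =>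
    intro γ _
    refine ⟨1, le_rfl, ?_⟩
    intro N f A s _ _ _
    have : (Mq 0 f : ℝ) = 2 ^ N := by
      unfold Mq
      simp only [Nat.choose_zero_right, Finset.sum_const, smul_eq_mul, mul_one]
      exact card_cube
    rw [this, pow_zero, mul_one, mul_one]
  | succ q ih =>
    intro γ hγ
    obtain ⟨C₁, hC₁, h₁⟩ := ih γ hγ
    obtain ⟨Q, hQ⟩ : ∃ Q : ℕ, Q = q + 1 := ⟨_, rfl⟩
    have hQ1 : 1 ≤ Q := by omega
    have hQR : (1 : ℝ) ≤ Q := by exact_mod_cast hQ1
    have hQ0 : (0 : ℝ) < Q := by linarith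
    obtain ⟨θ, hθ⟩ : ∃ θ : ℝ, θ = 2 / 3 * Q := ⟨_, rfl⟩
    have hθ0 : 0 < θ := by rw [hθ]; positivity
    obtain ⟨K, hK⟩ : ∃ K : ℝ, K = 2 * Q / γ + 2 := ⟨_, rfl⟩
    have hK2 : 2 ≤ K := by
      rw [hK]
      have : 0 ≤ 2 * (Q : ℝ) / γ := by positivity
      linarith
    have hK0 : 0 < K := by linarith
    have hKγ : 2 * (Q : ℝ) ≤ γ * K := by
      rw [hK]
      have : γ * (2 * Q / γ + 2) = 2 * Q + 2 * γ := by field_simp
      rw [this]
      linarith
    obtain ⟨ρ, hρ⟩ : ∃ ρ : ℝ, ρ = (1 - 1 / K) ^ θ := ⟨_, rfl⟩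
    have hK1 : 0 ≤ 1 - 1 / K := by
      have : 1 / K ≤ 1 := by rw [div_le_one hK0]; linarith
      linarith
    have hK1' : 1 - 1 / K < 1 := by
      have : 0 < 1 / K := by positivity
      linarith
    have hρ0 : 0 ≤ ρ := by rw [hρ]; exact Real.rpow_nonneg hK1 _
    have hρ1 : ρ < 1 := by rw [hρ]; exact Real.rpow_lt_one hK1 hK1' hθ0
    obtain ⟨C, hC⟩ : ∃ C : ℝ, C = max (4 ^ Q) (C₁ / (1 - ρ)) := ⟨_, rfl⟩
    have hC4 : (4 : ℝ) ^ Q ≤ C := by rw [hC]; exact le_max_left _ _
    have hCρ : C₁ ≤ C * (1 - ρ) := by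
      have : C₁ / (1 - ρ) ≤ C := by rw [hC]; exact le_max_right _ _
      rwa [div_le_iff₀ (by linarith)] at this
    have hC1 : 1 ≤ C := le_trans (one_le_pow₀ (by norm_num)) hC4
    have hC0 : 0 ≤ C := by linarith
    refine ⟨C, hC1, ?_⟩
    rw [← hQ]
    intro N
    have key : ∀ n : ℕ, 1 ≤ n → ∀ (f : BF N) (A : Finset (Fin N)), A.card = n →
        (∀ v, Ess f v → v ∈ A) → ∀ s : ℕ, LC f s →
        (Mq Q f : ℝ) ≤ 2 ^ N * C * ((n : ℝ) ^ γ * (s : ℝ) ^ ((2 : ℝ) / 3)) ^ Q := by
      intro n
      induction n with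
      | zero => intro h; omega
      | succ n ihn =>
      intro hn f A hAn hE
      -- reduction to the least number of leaves
      suffices hmin : ∀ ℓ : ℕ, LC f ℓ → (∀ s, LC f s → ℓ ≤ s) →
          (Mq Q f : ℝ) ≤ 2 ^ N * C * (((n + 1 : ℕ) : ℝ) ^ γ * (ℓ : ℝ) ^ ((2 : ℝ) / 3)) ^ Q by
        intro s hs
        classical
        have hex : ∃ ℓ, LC f ℓ := ⟨s, hs⟩
        refine (hmin (Nat.find hex) (Nat.find_spec hex) fun s' hs' => Nat.find_min' hex hs').trans ?_
        have h2 : ((Nat.find hex : ℕ) : ℝ) ≤ s := by exact_mod_cast Nat.find_min' hex hs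
        refine mul_le_mul_of_nonneg_left (pow_le_pow_left₀ (by positivity) ?_ _) (by positivity)
        exact mul_le_mul_of_nonneg_left
          (Real.rpow_le_rpow (Nat.cast_nonneg _) h2 (by norm_num)) (by positivity)
      intro ℓ hℓ hmin
      have hnR : (1 : ℝ) ≤ ((n + 1 : ℕ) : ℝ) := by exact_mod_cast hn
      have hnγ : (1 : ℝ) ≤ ((n + 1 : ℕ) : ℝ) ^ γ := Real.one_le_rpow hnR hγ.le
      rcases Nat.eq_zero_or_pos ℓ with h0 | hℓ1
      · -- constant function
        obtain ⟨F, hF, hF0⟩ := hℓ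
        have hc : ∀ x y, f x = f y := fun x y => by
          rw [← hF, ← hF]
          exact ev_const F (by omega) x y
        have hS : ∀ x, Sn f x = ∅ := fun x => by
          rw [Sn, Finset.filter_eq_empty_iff]
          intro v _ h
          exact h (hc _ _)
        have hM : Mq Q f = 0 := by
          unfold Mq
          refine Finset.sum_eq_zero fun x _ => ?_
          rw [hS x, Finset.card_empty]
          exact Nat.choose_eq_zero_of_lt (by omega)
        rw [hM, Nat.cast_zero]
        positivity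
      have hℓR : (1 : ℝ) ≤ (ℓ : ℝ) := by exact_mod_cast hℓ1
      have hℓ23 : (1 : ℝ) ≤ (ℓ : ℝ) ^ ((2 : ℝ) / 3) := Real.one_le_rpow hℓR (by norm_num)
      have hbase : (1 : ℝ) ≤ ((n + 1 : ℕ) : ℝ) ^ γ * (ℓ : ℝ) ^ ((2 : ℝ) / 3) := by
        nlinarith
      rcases Nat.lt_or_ge (2 * Q) (n + 1) with hbig | hsmall
      swap
      · -- few variables
        refine (mq_triv Q (2 * Q) f A hE (by omega)).trans ?_
        rw [mul_assoc]
        refine mul_le_mul_of_nonneg_left ?_ (by positivity)
        rw [pow_mul]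
        have h4 : ((2 : ℝ) ^ 2) ^ Q = 4 ^ Q := by norm_num
        rw [h4]
        calc (4 : ℝ) ^ Q ≤ C * 1 := by rw [mul_one]; exact hC4
          _ ≤ _ := mul_le_mul_of_nonneg_left (one_le_pow₀ hbase) hC0
      obtain ⟨m, hm1, hm2, hm3, hm4⟩ := one N f ℓ hℓ1 hℓ hmin
      -- the induction hypothesis for the restrictions
      have hEr : ∀ v b w, Ess (rst f v b) w → w ∈ A.erase v := fun v b w h => by
        obtain ⟨h1, h2⟩ := ess_rst h
        exact Finset.mem_erase.2 ⟨h1, hE w h2⟩
      have hcard : ∀ v ∈ A, (A.erase v).card = n := fun v hv => by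
        rw [Finset.card_erase_of_mem hv, hAn]
        rfl
      have hn1 : 1 ≤ n := by omega
      have hn1R : (1 : ℝ) ≤ (n : ℝ) := by exact_mod_cast hn1
      by_cases hcase : ∃ v ∈ A, (ℓ : ℝ) ≤ K * m v
      · -- a heavy variable
        obtain ⟨v, hv, hmv⟩ := hcase
        have hml : m v ≤ ℓ := by
          rw [← hm1]
          exact Finset.single_le_sum (fun i _ => Nat.zero_le _) (Finset.mem_univ v)
        have hsub : ((ℓ - m v : ℕ) : ℝ) ≤ (1 - 1 / K) * ℓ := by
          rw [Nat.cast_sub hml]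
          have : (ℓ : ℝ) / K ≤ m v := by
            rw [div_le_iff₀ hK0]; linarith
          have e : (1 - 1 / K) * (ℓ : ℝ) = ℓ - ℓ / K := by ring
          rw [e]
          linarith
        have hnn : (n : ℝ) ^ γ ≤ ((n + 1 : ℕ) : ℝ) ^ γ :=
          Real.rpow_le_rpow (by positivity) (by push_cast; linarith) hγ.le
        have hA1 : (A.erase v).Nonempty := by
          rw [← Finset.card_pos, hcard v hv]; omega
        obtain ⟨X, hX⟩ : ∃ X : ℝ, X = (((n + 1 : ℕ) : ℝ) ^ γ * (ℓ : ℝ) ^ ((2 : ℝ) / 3)) :=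
          ⟨_, rfl⟩
        rw [← hX] at hbase ⊢
        have hX0 : 0 ≤ X := by linarith
        have b1 : ∀ b, (Mq Q (rst f v b) : ℝ) ≤ 2 ^ N * C * (ρ * X ^ Q) := by
          intro b
          refine (ihn hn1 (rst f v b) (A.erase v) (hcard v hv) (hEr v b) _ (hm3 v b)).trans ?_
          refine mul_le_mul_of_nonneg_left ?_ (by positivity)
          calc ((n : ℝ) ^ γ * ((ℓ - m v : ℕ) : ℝ) ^ ((2 : ℝ) / 3)) ^ Q
              ≤ (((n + 1 : ℕ) : ℝ) ^ γ * ((1 - 1 / K) * ℓ) ^ ((2 : ℝ) / 3)) ^ Q := by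
                refine pow_le_pow_left₀ (by positivity) ?_ _
                exact mul_le_mul hnn
                  (Real.rpow_le_rpow (by positivity) hsub (by norm_num)) (by positivity)
                  (by positivity)
            _ = ρ * X ^ Q := by
                rw [Real.mul_rpow hK1 (by positivity), hX]
                have e : ((n + 1 : ℕ) : ℝ) ^ γ * ((1 - 1 / K) ^ ((2 : ℝ) / 3) *
                    (ℓ : ℝ) ^ ((2 : ℝ) / 3)) = (1 - 1 / K) ^ ((2 : ℝ) / 3) *
                    (((n + 1 : ℕ) : ℝ) ^ γ * (ℓ : ℝ) ^ ((2 : ℝ) / 3)) := by ring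
                rw [e, mul_pow, ← Real.rpow_natCast ((1 - 1 / K) ^ ((2 : ℝ) / 3)) Q,
                  ← Real.rpow_mul hK1, hρ, hθ]
        have b2 : ∀ b, (Mq q (rst f v b) : ℝ) ≤ 2 ^ N * C₁ * X ^ Q := by
          intro b
          refine (h₁ N (rst f v b) (A.erase v) _ hA1 (hEr v b) (hm3 v b)).trans ?_
          refine mul_le_mul_of_nonneg_left ?_ (by positivity)
          rw [hcard v hv]
          calc ((n : ℝ) ^ γ * ((ℓ - m v : ℕ) : ℝ) ^ ((2 : ℝ) / 3)) ^ q ≤ X ^ q := by
                refine pow_le_pow_left₀ (by positivity) ?_ _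
                rw [hX]
                refine mul_le_mul hnn (Real.rpow_le_rpow (by positivity) ?_ (by norm_num))
                  (by positivity) (by positivity)
                exact_mod_cast Nat.sub_le _ _
            _ ≤ X ^ Q := pow_le_pow_right₀ hbase (by omega)
        have b3 := hvy N q f v
        rw [← hQ] at b3
        have b4 : 2 * (Mq Q f : ℝ) ≤ (Mq Q (rst f v false) + Mq Q (rst f v true)) +
            (Mq q (rst f v false) + Mq q (rst f v true)) := by exact_mod_cast b3
        have c1 := b1 false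
        have c2 := b1 true
        have c3 := b2 false
        have c4 := b2 true
        have hXQ : 0 ≤ X ^ Q := pow_nonneg hX0 _
        have c5 : 2 ^ N * C * (ρ * X ^ Q) + 2 ^ N * C₁ * X ^ Q ≤ 2 ^ N * C * X ^ Q := by
          have e1 : 2 ^ N * C * (ρ * X ^ Q) + 2 ^ N * C₁ * X ^ Q =
              (2 ^ N * X ^ Q) * (C * ρ + C₁) := by ring
          have e2 : 2 ^ N * C * X ^ Q = (2 ^ N * X ^ Q) * C := by ring
          rw [e1, e2]
          refine mul_le_mul_of_nonneg_left ?_ (by positivity)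
          nlinarith
        linarith
      · -- all variables are light
        have hlight : ∀ v ∈ A, K * m v < ℓ := fun v hv => by
          by_contra h
          exact hcase ⟨v, hv, not_lt.1 h⟩
        have hsumA : ∑ v ∈ A, m v = ℓ := by
          rw [← hm1]
          refine Finset.sum_subset (Finset.subset_univ A) fun v _ hv => ?_
          exact hm2 v fun h => hv (hE v h)
        have hl2 : 2 ≤ ℓ := by
          obtain ⟨v, hv, hmv⟩ : ∃ v ∈ A, m v ≠ 0 := by
            by_contra h
            push Not at h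
            have := Finset.sum_eq_zero h
            omega
          have h1 := hlight v hv
          have h2 : (1 : ℝ) ≤ m v := by exact_mod_cast Nat.one_le_iff_ne_zero.2 hmv
          have h3 : (2 : ℝ) < ℓ := by nlinarith
          have h4 : 2 < ℓ := by exact_mod_cast h3
          omega
        obtain ⟨κ, hκ⟩ : ∃ κ : ℝ, κ = 5 * Q / (9 * K) := ⟨_, rfl⟩
        have hκγ : 2 * κ ≤ γ := by
          rw [hκ]
          have : 2 * (5 * (Q : ℝ) / (9 * K)) = (10 * Q) / (9 * K) := by ring
          rw [this, div_le_iff₀ (by positivity)]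
          nlinarith
        have hκ0 : 0 ≤ κ := by rw [hκ]; positivity
        obtain ⟨Z, hZ⟩ : ∃ Z : ℝ, Z = (n : ℝ) ^ (γ * Q) * (ℓ : ℝ) ^ θ := ⟨_, rfl⟩
        have hZ0 : 0 ≤ Z := by rw [hZ]; positivity
        have hv1 : ∀ v ∈ A, ((Mq Q (rst f v false) : ℝ) + Mq Q (rst f v true)) ≤
            2 * (2 ^ N * C * Z) * (1 - Q * (m v / ℓ) + Q * κ * (m v / ℓ)) := by
          intro v hv
          obtain ⟨D, hD, hD3⟩ := hm4 hl2 v
          have r1 : ∀ b, (Mq Q (rst f v b) : ℝ) ≤
              2 ^ N * C * ((n : ℝ) ^ (γ * Q) * ((ℓ - D b : ℕ) : ℝ) ^ θ) := by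
            intro b
            have := ihn hn1 (rst f v b) (A.erase v) (hcard v hv) (hEr v b) _ (hD b).2.2
            rw [pw γ Q (by positivity) (by positivity), ← hθ] at this
            exact this
          have hlv := hlight v hv
          have hm0 : (0 : ℝ) ≤ m v := Nat.cast_nonneg _
          have h2m : 2 * m v ≤ ℓ := by
            have : (2 : ℝ) * m v ≤ ℓ := by nlinarith
            exact_mod_cast this
          have r2 := rpw θ hθ0.le ℓ (m v) (D false) (D true) hℓ1 h2m (hD false).1 (hD true).1 hD3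
            (hD false).2.1 (hD true).2.1
          have ht0 : 0 ≤ (m v : ℝ) / ℓ := by positivity
          have ht1 : (m v : ℝ) / ℓ ≤ 1 / K := by
            rw [div_le_div_iff₀ (by linarith) hK0]
            linarith
          have r3 : 1 - (3 / 2) * θ * ((m v : ℝ) / ℓ) + (5 / 4) * θ ^ 2 * ((m v : ℝ) / ℓ) ^ 2 ≤
              1 - Q * (m v / ℓ) + Q * κ * (m v / ℓ) := by
            have e1 : (3 / 2) * θ = Q := by rw [hθ]; ring
            have e2 : (5 / 4) * θ ^ 2 = 5 / 9 * (Q : ℝ) ^ 2 := by rw [hθ]; ring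
            have e3 : Q * κ * ((m v : ℝ) / ℓ) = 5 / 9 * (Q : ℝ) ^ 2 * ((1 / K) * (m v / ℓ)) := by
              rw [hκ]; field_simp
            rw [e1, e2, e3]
            have : ((m v : ℝ) / ℓ) ^ 2 ≤ (1 / K) * (m v / ℓ) := by
              rw [pow_two]
              exact mul_le_mul_of_nonneg_right ht1 ht0
            have h5 := mul_le_mul_of_nonneg_left this
              (show (0 : ℝ) ≤ 5 / 9 * (Q : ℝ) ^ 2 by positivity)
            linarith
          have hℓθ : (0 : ℝ) ≤ (ℓ : ℝ) ^ θ := by positivity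
          have hP : 0 ≤ 2 ^ N * C * (n : ℝ) ^ (γ * Q) := by positivity
          have r4 := mul_le_mul_of_nonneg_left (r2.trans (mul_le_mul_of_nonneg_left r3 hℓθ)) hP
          have r5 := r1 false
          have r6 := r1 true
          rw [hZ]
          nlinarith
        have hsum := Finset.sum_le_sum hv1
        rw [avg N Q f A hE] at hsum
        have hsumt : ∑ v ∈ A, ((m v : ℝ) / ℓ) = 1 := by
          rw [← Finset.sum_div, ← Nat.cast_sum, hsumA]
          exact div_self (by linarith)
        have hR : ∑ v ∈ A, 2 * (2 ^ N * C * Z) * (1 - Q * ((m v : ℝ) / ℓ) + Q * κ * (m v / ℓ)) =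
            2 * (2 ^ N * C * Z) * (((n + 1 : ℕ) : ℝ) - Q + Q * κ) := by
          rw [← Finset.mul_sum, Finset.sum_add_distrib, Finset.sum_sub_distrib, ← Finset.mul_sum,
            ← Finset.mul_sum, hsumt, Finset.sum_const, hAn, nsmul_eq_mul]
          ring
        rw [hR, hAn] at hsum
        obtain ⟨T, hT⟩ : ∃ T : ℝ, T = ((n + 1 : ℕ) : ℝ) := ⟨_, rfl⟩
        have hTn : (n : ℝ) = T - 1 := by rw [hT]; push_cast; ring
        have hT2 : 2 * (Q : ℝ) < T := by rw [hT]; exact_mod_cast hbig
        have hT0 : 0 < T := by linarith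
        rw [← hT] at hsum ⊢
        rw [pw γ Q hT0.le (by positivity), ← hθ]
        -- the numerical inequality
        have hnum : (n : ℝ) ^ (γ * Q) * (T - Q + Q * κ) ≤ T ^ (γ * Q) * (T - Q) := by
          have e1 : (n : ℝ) = T * (1 - 1 / T) := by rw [hTn]; field_simp
          have hT1 : 0 ≤ 1 - 1 / T := by
            have : 1 / T ≤ 1 := by rw [div_le_one hT0]; linarith
            linarith
          rw [e1, Real.mul_rpow hT0.le hT1, mul_assoc]
          refine mul_le_mul_of_nonneg_left ?_ (by positivity)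
          have e2 : (1 - 1 / T) ^ (γ * Q) ≤ Real.exp (-(γ * Q / T)) := by
            have h1 : 1 - 1 / T ≤ Real.exp (-(1 / T)) := by
              have := Real.add_one_le_exp (-(1 / T))
              linarith
            calc (1 - 1 / T) ^ (γ * Q) ≤ (Real.exp (-(1 / T))) ^ (γ * Q) :=
                  Real.rpow_le_rpow hT1 h1 (by positivity)
              _ = Real.exp (-(γ * Q / T)) := by
                  rw [← Real.exp_mul]
                  congr 1
                  ring
          have e3 : T - Q + Q * κ ≤ (T - Q) * Real.exp (γ * Q / T) := by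
            have h1 : γ * Q / T + 1 ≤ Real.exp (γ * Q / T) := Real.add_one_le_exp _
            have h2 : Q * κ ≤ (T - Q) * (γ * Q / T) := by
              have h3 : (1 : ℝ) / 2 ≤ (T - Q) / T := by
                rw [div_le_div_iff₀ (by norm_num) hT0]; linarith
              have h4 : (T - Q) * (γ * Q / T) = ((T - Q) / T) * (γ * Q) := by ring
              rw [h4]
              have h5 : (1 / 2 : ℝ) * (γ * Q) ≤ ((T - Q) / T) * (γ * Q) :=
                mul_le_mul_of_nonneg_right h3 (by positivity)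
              nlinarith
            have h6 : 0 ≤ T - Q := by linarith
            nlinarith
          have h7 : 0 ≤ T - Q + Q * κ := by
            have : 0 ≤ Q * κ := by positivity
            linarith
          calc (1 - 1 / T) ^ (γ * Q) * (T - Q + Q * κ)
              ≤ Real.exp (-(γ * Q / T)) * ((T - Q) * Real.exp (γ * Q / T)) :=
                mul_le_mul e2 e3 h7 (Real.exp_pos _).le
            _ = (T - Q) * (Real.exp (-(γ * Q / T)) * Real.exp (γ * Q / T)) := by ring
            _ = T - Q := by rw [← Real.exp_add]; simp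
        have hTQ : 0 < T - Q := by linarith
        refine le_of_mul_le_mul_left ?_ (show (0 : ℝ) < 2 * (T - Q) by linarith)
        refine hsum.trans ?_
        have hP2 : 0 ≤ 2 * (2 ^ N * C) * (ℓ : ℝ) ^ θ := by positivity
        have h8 := mul_le_mul_of_nonneg_left hnum hP2
        rw [hZ]
        linarith
    intro f A s hA hE hs
    exact key A.card (Finset.card_pos.2 hA) f A rfl hE s hs

end Pool.Agent.FUR.H91
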